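import Pool.Agent.W308.PL.FLW2

/-!
PL-FLW: the fundamental lemma (Brun-Hooley) with super-exponential rate.
-/

open Finset

namespace Pool.Agent.W308.PL.FLW

open Pool.Agent.W23.PL
open Pool.Agent.W23.DC

theorem geo_sum (b : ℝ) (J : ℕ) : ∑ j ∈ range J, (2 * (b + j) + 1) * (1 / 2 : ℝ) ^ j =
    4 * b + 6 - (4 * J + 4 * b + 6) * (1 / 2 : ℝ) ^ J := by
  induction J with
  | zero => simp
  | succ J ih =>
    rw [sum_range_succ, ih, pow_succ]
    push_cast
    ring

theorem tail_sum (L s : ℝ) (hL : 0 < L) (hs : 0 ≤ s) (b J : ℕ) :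
    ∑ j ∈ range J, L ^ (2 * (b + j) + 1) / ((2 * (b + j) + 1).factorial : ℝ) ≤
      Real.exp (-(s * (2 * b + 1)) + L * Real.exp s) := by
  have h1 : ∀ k : ℕ, 2 * b + 1 ≤ k → L ^ k / (k.factorial : ℝ) ≤
      Real.exp (-(s * (2 * b + 1))) * ((L * Real.exp s) ^ k / (k.factorial : ℝ)) := by
    intro k hk
    have hk' : (2 * b + 1 : ℝ) ≤ k := by exact_mod_cast hk
    have e1 : (L * Real.exp s) ^ k = L ^ k * Real.exp (s * k) := by
      rw [mul_pow, ← Real.exp_nat_mul]
      congr 2
      ring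
    rw [e1, mul_div_assoc', mul_comm (L ^ k), ← mul_assoc, ← Real.exp_add]
    have e2 : 1 ≤ Real.exp (-(s * (2 * b + 1)) + s * k) := by
      apply Real.one_le_exp
      nlinarith
    rw [div_le_div_iff_of_pos_right (by positivity)]
    exact le_mul_of_one_le_left (by positivity) e2
  calc ∑ j ∈ range J, L ^ (2 * (b + j) + 1) / ((2 * (b + j) + 1).factorial : ℝ)
      ≤ ∑ j ∈ range J, Real.exp (-(s * (2 * b + 1))) *
        ((L * Real.exp s) ^ (2 * (b + j) + 1) / ((2 * (b + j) + 1).factorial : ℝ)) :=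
        sum_le_sum fun j _ => h1 _ (by omega)
    _ = Real.exp (-(s * (2 * b + 1))) * ∑ j ∈ range J,
        ((L * Real.exp s) ^ (2 * (b + j) + 1) / ((2 * (b + j) + 1).factorial : ℝ)) := by
        rw [mul_sum]
    _ ≤ Real.exp (-(s * (2 * b + 1))) * Real.exp (L * Real.exp s) := by
        apply mul_le_mul_of_nonneg_left _ (Real.exp_pos _).le
        have h2 : ∑ j ∈ range J,
            ((L * Real.exp s) ^ (2 * (b + j) + 1) / ((2 * (b + j) + 1).factorial : ℝ)) =
            ∑ k ∈ (range J).image (fun j => 2 * (b + j) + 1),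
              ((L * Real.exp s) ^ k / (k.factorial : ℝ)) := by
          rw [sum_image]
          intro i _ j _ hij
          simp only at hij
          omega
        rw [h2]
        refine le_trans ?_ (Real.sum_le_exp_of_nonneg (x := L * Real.exp s) (by positivity)
          (2 * (b + J) + 1))
        apply sum_le_sum_of_subset_of_nonneg
        · intro k hk
          rw [mem_image] at hk
          obtain ⟨j, hj, rfl⟩ := hk
          rw [mem_range] at hj ⊢
          omega
        · intro k _ _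
          positivity
    _ = _ := by rw [← Real.exp_add]

/-- blocks -/
noncomputable def blk (N : ℕ) (ε : ℝ) (P : Finset ℕ) (j : ℕ) : Finset ℕ := by
  classical
  exact P.filter (fun p => ε * (1 / 2) ^ (j + 1) ≤ tt N p ∧ tt N p < ε * (1 / 2) ^ j)

theorem mem_blk {N : ℕ} {ε : ℝ} {P : Finset ℕ} {j p : ℕ} : p ∈ blk N ε P j ↔
    p ∈ P ∧ ε * (1 / 2) ^ (j + 1) ≤ tt N p ∧ tt N p < ε * (1 / 2) ^ j := by
  unfold blk
  rw [mem_filter]

theorem main : St_FLW := by
  intro η₀ A hη hA
  obtain ⟨L, hL0, hLb⟩ := block_bd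
  set s : ℝ := (A + 1) / (η₀ / 4) with hs
  have hs0 : 0 < s := by positivity
  have hsc : s * (η₀ / 4) = A + 1 := by rw [hs]; field_simp
  set X0 : ℝ := 1 + 16 / η₀ + (Real.log 3 + 2 * L + L * Real.exp s) with hX0
  have hlog3 : 0 < Real.log 3 := Real.log_pos (by norm_num)
  have hX1 : 1 ≤ X0 := by
    rw [hX0]
    have : 0 < 16 / η₀ := by positivity
    have : 0 < L * Real.exp s := by positivity
    linarith
  have hX0p : 0 < X0 := by linarith
  refine ⟨1 / X0, by positivity, ?_⟩
  intro ε hε hεX B hB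
  set x : ℝ := 1 / ε with hx
  have hx0 : 0 < x := by positivity
  have hxε : x * ε = 1 := by rw [hx]; field_simp
  have hxX : X0 ≤ x := by
    rw [hx, le_div_iff₀ hε]
    rw [le_div_iff₀ hX0p] at hεX
    linarith
  have hε1 : ε ≤ 1 := by
    rw [le_div_iff₀ hX0p] at hεX
    nlinarith
  have hηx : 16 ≤ η₀ * x := by
    have h1 : 16 / η₀ ≤ x := by
      have : 0 < L * Real.exp s := by positivity
      rw [hX0] at hxX
      linarith
    rw [div_le_iff₀ hη] at h1
    linarith
  have hxL : Real.log 3 + 2 * L + L * Real.exp s ≤ x := by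
    have : 0 < 16 / η₀ := by positivity
    rw [hX0] at hxX
    linarith
  set b : ℕ := ⌊(η₀ * x - 6) / 4⌋₊ with hb
  have hb1 : (b : ℝ) ≤ (η₀ * x - 6) / 4 := Nat.floor_le (by linarith)
  have hb2 : (η₀ * x - 6) / 4 < b + 1 := Nat.lt_floor_add_one _
  have hb3 : η₀ / 4 * x ≤ 2 * b + 1 := by linarith
  have hb4 : (4 * b + 6) * ε ≤ η₀ := by
    have h1 : (4 * b + 6 : ℝ) ≤ η₀ * x := by linarith
    calc (4 * b + 6) * ε ≤ η₀ * x * ε := mul_le_mul_of_nonneg_right h1 hε.le
      _ = η₀ := by rw [mul_assoc, hxε, mul_one]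
  refine ⟨⌈Real.exp (Real.exp 1)⌉₊ + 1, ?_⟩
  intro N hN D hD
  have hNe : Real.exp (Real.exp 1) ≤ N := by
    have h1 := Nat.le_ceil (Real.exp (Real.exp 1))
    have h2 : ((⌈Real.exp (Real.exp 1)⌉₊ + 1 : ℕ) : ℝ) ≤ N := by exact_mod_cast hN
    push_cast at h2
    linarith
  have hN0 : (0 : ℝ) < N := lt_of_lt_of_le (Real.exp_pos _) hNe
  have hlogN : Real.exp 1 ≤ Real.log N := by
    rw [Real.le_log_iff_exp_le hN0]
    exact hNe
  have he2 : (2 : ℝ) ≤ Real.exp 1 := by
    have := Real.add_one_le_exp (1 : ℝ)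
    linarith
  have hlog2 : 2 ≤ Real.log N := he2.trans hlogN
  have hlog0 : 0 < Real.log N := by linarith
  have hloglog : 1 ≤ Real.log (Real.log N) := by
    rw [Real.le_log_iff_exp_le hlog0]
    exact hlogN
  set P := P1 N B ε with hP
  have hPmem : ∀ p, p ∈ P ↔ (1 ≤ p ∧ p ≤ N) ∧ p.Prime ∧ Real.log N ^ B ≤ (p : ℝ) ∧ tt N p < ε := by
    intro p
    rw [hP]
    unfold P1
    rw [mem_filter, mem_Icc]
  set J : ℕ := ⌊Real.log N⌋₊ with hJ
  have hJN : (J : ℝ) ≤ Real.log N := Nat.floor_le hlog0.le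
  have hJ2 : Real.log N < J + 1 := Nat.lt_floor_add_one _
  have hpowJ : Real.log N ≤ 2 ^ J := by
    have h1 : J + 1 ≤ 2 ^ J := Nat.lt_two_pow_self
    have h2 : ((J : ℝ) + 1) ≤ 2 ^ J := by exact_mod_cast h1
    linarith
  have htt : ∀ p ∈ P, ε * (1 / 2) ^ J ≤ tt N p := by
    intro p hp
    rw [hPmem] at hp
    have h1 : Real.log N ≤ p := by
      refine le_trans ?_ hp.2.2.1
      exact le_self_pow₀ (by linarith) (by omega)
    have h2 : 1 ≤ Real.log p := hloglog.trans (Real.log_le_log hlog0 h1)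
    unfold tt
    rw [le_div_iff₀ hlog0]
    have h3 : (1 / 2 : ℝ) ^ J * Real.log N ≤ 1 := by
      rw [one_div, inv_pow, inv_mul_le_iff₀ (by positivity)]
      linarith
    have h4 : 0 ≤ (1 / 2 : ℝ) ^ J * Real.log N := by positivity
    calc ε * (1 / 2) ^ J * Real.log N = ε * ((1 / 2) ^ J * Real.log N) := by ring
      _ ≤ 1 * 1 := mul_le_mul hε1 h3 h4 (by norm_num)
      _ ≤ Real.log p := by linarith
  have hJ1 : 1 ≤ J := by
    rw [hJ]
    exact Nat.le_floor (by push_cast; linarith)
  set Pb : Fin J → Finset ℕ := fun j => blk N ε P j with hPb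
  have hmono : ∀ i j : ℕ, i ≤ j → ε * (1 / 2 : ℝ) ^ j ≤ ε * (1 / 2) ^ i := by
    intro i j hij
    apply mul_le_mul_of_nonneg_left _ hε.le
    exact pow_le_pow_of_le_one (by norm_num) (by norm_num) hij
  have hdisj0 : ∀ i j : ℕ, i < j → Disjoint (blk N ε P i) (blk N ε P j) := by
    intro i j hij
    rw [disjoint_left]
    intro p hi hj
    rw [mem_blk] at hi hj
    have := hmono (i + 1) j hij
    linarith [hi.2.1, hj.2.2]
  have hdisj : ∀ i j, i ≠ j → Disjoint (Pb i) (Pb j) := by
    intro i j hij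
    rcases lt_or_gt_of_ne (fun h => hij (Fin.ext h) : (i : ℕ) ≠ j) with h | h
    · exact hdisj0 i j h
    · exact (hdisj0 j i h).symm
  have hcover : P = univ.biUnion Pb := by
    ext p
    rw [mem_biUnion]
    constructor
    · intro hp
      have hex : ∃ j : ℕ, ε * (1 / 2) ^ (j + 1) ≤ tt N p := ⟨J - 1, by
        have : J - 1 + 1 = J := by omega
        rw [this]; exact htt p hp⟩
      classical
      have h1 := Nat.find_spec hex
      have h2 : Nat.find hex ≤ J - 1 := Nat.find_min' hex (by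
        have : J - 1 + 1 = J := by omega
        rw [this]; exact htt p hp)
      refine ⟨⟨Nat.find hex, by omega⟩, mem_univ _, ?_⟩
      simp only [hPb]
      rw [mem_blk]
      refine ⟨hp, h1, ?_⟩
      by_cases h0 : Nat.find hex = 0
      · rw [h0, pow_zero, mul_one]
        exact ((hPmem p).1 hp).2.2.2
      · have h3 := Nat.find_min hex (m := Nat.find hex - 1) (by omega)
        have h4 : Nat.find hex - 1 + 1 = Nat.find hex := by omega
        rw [h4] at h3
        push Not at h3
        exact h3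
    · rintro ⟨j, -, hj⟩
      simp only [hPb] at hj
      exact (mem_blk.1 hj).1
  have hprime : ∀ j, ∀ p ∈ Pb j, p.Prime := by
    intro j p hp
    exact ((hPmem p).1 (mem_blk.1 hp).1).2.1
  have hLj : ∀ j, ∑ p ∈ Pb j, (1 : ℝ) / p ≤ L := by
    intro j
    apply hLb _ (hprime j)
    intro p hp q hq
    have h1 := (mem_blk.1 hp).2.1
    have h2 := (mem_blk.1 hq).2.2
    have h3 : tt N q < 2 * tt N p := by
      rw [pow_succ] at h1
      linarith
    unfold tt at h3
    rw [← mul_div_assoc, div_lt_div_iff_of_pos_right hlog0] at h3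
    have hp0 : (0 : ℝ) < p := by exact_mod_cast (hprime j p hp).pos
    have hq0 : (0 : ℝ) < q := by exact_mod_cast (hprime j q hq).pos
    have h4 : Real.log q < Real.log ((p : ℝ) ^ 2) := by
      rw [Real.log_pow]
      push_cast
      exact h3
    have h5 : (q : ℝ) < (p : ℝ) ^ 2 := (Real.log_lt_log_iff hq0 (by positivity)).1 h4
    exact_mod_cast h5
  have hlevel : ∀ U ⊆ P, (∀ j : Fin J, (U ∩ Pb j).card ≤ 2 * (b + j) + 1) →
      ∏ p ∈ U, p ≤ D := by
    intro U hU hc
    have hUpos : ∀ p ∈ U, (0 : ℝ) < p := fun p hp => by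
      exact_mod_cast ((hPmem p).1 (hU hp)).2.1.pos
    have hsplit : U = univ.biUnion fun j => U ∩ Pb j := by
      ext p
      rw [mem_biUnion]
      constructor
      · intro hp
        have := hU hp
        rw [hcover, mem_biUnion] at this
        obtain ⟨j, hj, hpj⟩ := this
        exact ⟨j, hj, mem_inter.2 ⟨hp, hpj⟩⟩
      · rintro ⟨j, -, hj⟩
        exact (mem_inter.1 hj).1
    have hlogU : ∑ p ∈ U, Real.log p ≤ η₀ * Real.log N := by
      calc ∑ p ∈ U, Real.log p = ∑ j : Fin J, ∑ p ∈ U ∩ Pb j, Real.log p := by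
            conv_lhs => rw [hsplit]
            rw [sum_biUnion]
            intro i _ j _ hij
            exact disjoint_of_subset_left inter_subset_right
              (disjoint_of_subset_right inter_subset_right (hdisj i j hij))
        _ ≤ ∑ j : Fin J, (2 * ((b : ℝ) + (j : ℕ)) + 1) * (1 / 2 : ℝ) ^ (j : ℕ) *
              (ε * Real.log N) := by
            apply sum_le_sum
            intro j _
            calc ∑ p ∈ U ∩ Pb j, Real.log p ≤
                ∑ p ∈ U ∩ Pb j, ε * (1 / 2) ^ (j : ℕ) * Real.log N := by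
                  apply sum_le_sum
                  intro p hp
                  have h1 := (mem_blk.1 (mem_inter.1 hp).2).2.2
                  unfold tt at h1
                  rw [div_lt_iff₀ hlog0] at h1
                  exact h1.le
              _ = ((U ∩ Pb j).card : ℝ) * (ε * (1 / 2) ^ (j : ℕ) * Real.log N) := by
                  rw [sum_const, nsmul_eq_mul]
              _ ≤ (2 * ((b : ℝ) + (j : ℕ)) + 1) * (ε * (1 / 2) ^ (j : ℕ) * Real.log N) := by
                  apply mul_le_mul_of_nonneg_right _ (by positivity)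
                  exact_mod_cast hc j
              _ = _ := by ring
        _ = (4 * b + 6 - (4 * J + 4 * b + 6) * (1 / 2 : ℝ) ^ J) * (ε * Real.log N) := by
            rw [← sum_mul, Fin.sum_univ_eq_sum_range
              (fun j => (2 * ((b : ℝ) + (j : ℕ)) + 1) * (1 / 2 : ℝ) ^ j), geo_sum]
        _ ≤ (4 * b + 6) * (ε * Real.log N) := by
            apply mul_le_mul_of_nonneg_right _ (by positivity)
            have : 0 ≤ (4 * (J : ℝ) + 4 * b + 6) * (1 / 2 : ℝ) ^ J := by positivity
            linarith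
        _ = (4 * b + 6) * ε * Real.log N := by ring
        _ ≤ η₀ * Real.log N := mul_le_mul_of_nonneg_right hb4 hlog0.le
    rw [hD]
    apply Nat.le_floor
    push_cast
    rw [← Real.log_le_log_iff (prod_pos hUpos) (Real.rpow_pos_of_pos hN0 _),
      Real.log_rpow hN0, Real.log_prod (fun p hp => (hUpos p hp).ne')]
    exact hlogU
  have hρ : ∑ j : Fin J, Real.exp (2 * L) *
      (L ^ (2 * (b + (j : ℕ)) + 1) / ((2 * (b + (j : ℕ)) + 1).factorial : ℝ)) ≤
      Real.exp (-(A / ε)) / 3 := by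
    rw [← mul_sum, Fin.sum_univ_eq_sum_range
      (fun j => L ^ (2 * (b + j) + 1) / ((2 * (b + j) + 1).factorial : ℝ))]
    have h1 := tail_sum L s hL0 hs0.le b J
    have h2 := mul_le_mul_of_nonneg_left h1 (Real.exp_pos (2 * L)).le
    refine h2.trans ?_
    rw [le_div_iff₀ (by norm_num : (0 : ℝ) < 3), ← Real.exp_add]
    have h3 : (3 : ℝ) = Real.exp (Real.log 3) := (Real.exp_log (by norm_num)).symm
    rw [h3, ← Real.exp_add]
    apply Real.exp_le_exp.2
    have h4 : A / ε = A * x := by rw [hx]; ring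
    rw [h4]
    have h5 : (A + 1) * x ≤ s * (2 * b + 1) := by
      have := mul_le_mul_of_nonneg_left hb3 hs0.le
      calc (A + 1) * x = s * (η₀ / 4 * x) := by rw [← hsc]; ring
        _ ≤ _ := this
    linarith
  have hρ1 : Real.exp (-(A / ε)) / 3 ≤ 1 := by
    have h1 : Real.exp (-(A / ε)) ≤ 1 := by
      apply Real.exp_le_one_iff.2
      have : 0 < A / ε := by positivity
      linarith
    linarith
  obtain ⟨th, dl, h1, h2, h3, h4, h5⟩ := core Pb b hdisj P hcover hprime L hLj D hlevel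
    (Real.exp (-(A / ε)) / 3) hρ1 hρ (Real.log N) (by linarith) hJN
  refine ⟨th, dl, h1, h2, h3, ?_, ?_⟩
  · have : 3 * (Real.exp (-(A / ε)) / 3) = Real.exp (-(A / ε)) := by ring
    rw [this] at h4
    exact h4
  · have : 3 * (Real.exp (-(A / ε)) / 3) = Real.exp (-(A / ε)) := by ring
    rw [this] at h5
    exact h5

end Pool.Agent.W308.PL.FLW

namespace Pool.Agent.W308.PL

/-- **FLW** -/
theorem FLW : Pool.Agent.W23.PL.St_FLW := FLW.main

end Pool.Agent.W308.PL
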