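import Mathlib
import Pool.Agent.Helper112.Lp.Kbh

/-!
PL-FLW, part 1: coefficients indexed by subsets of a finite set of primes.
-/

open Finset

namespace Pool.Agent.W308.PL.FLW

/-- factorisation of a sum over the subsets of a disjoint union -/
theorem fact {J : ℕ} (Pb : Fin J → Finset ℕ) (hd : ∀ i j, i ≠ j → Disjoint (Pb i) (Pb j))
    (P : Finset ℕ) (hP : P = univ.biUnion Pb) (c : Fin J → Finset ℕ → ℝ) (g : ℕ → ℝ) :
    ∑ U ∈ P.powerset, (∏ j, c j (U ∩ Pb j)) * ∏ p ∈ U, g p =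
      ∏ j, ∑ V ∈ (Pb j).powerset, c j V * ∏ p ∈ V, g p := by
  rw [prod_univ_sum]
  have hint : ∀ T ∈ Fintype.piFinset fun j => (Pb j).powerset, ∀ i,
      univ.biUnion T ∩ Pb i = T i := by
    intro T hT i
    rw [Fintype.mem_piFinset] at hT
    ext x
    rw [mem_inter, mem_biUnion]
    constructor
    · rintro ⟨⟨j, -, hj⟩, hi⟩
      by_cases hij : i = j
      · rw [hij]; exact hj
      · exact absurd (mem_powerset.1 (hT j) hj) (disjoint_left.1 (hd i j hij) hi)
    · intro h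
      exact ⟨⟨i, mem_univ _, h⟩, mem_powerset.1 (hT i) h⟩
  symm
  refine sum_nbij' (fun T => univ.biUnion T) (fun U j => U ∩ Pb j) ?_ ?_ ?_ ?_ ?_
  · intro T hT
    rw [Fintype.mem_piFinset] at hT
    rw [mem_powerset, hP]
    exact biUnion_mono fun j _ => mem_powerset.1 (hT j)
  · intro U _
    rw [Fintype.mem_piFinset]
    intro j
    rw [mem_powerset]
    exact inter_subset_right
  · intro T hT
    funext i
    exact hint T hT i
  · intro U hU
    rw [mem_powerset, hP] at hU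
    ext x
    rw [mem_biUnion]
    constructor
    · rintro ⟨j, -, hj⟩
      exact (mem_inter.1 hj).1
    · intro hx
      obtain ⟨j, -, hj⟩ := mem_biUnion.1 (hU hx)
      exact ⟨j, mem_univ _, mem_inter.2 ⟨hx, hj⟩⟩
  · intro T hT
    have h := hint T hT
    rw [prod_mul_distrib]
    congr 1
    · apply prod_congr rfl
      intro j _
      rw [h j]
    · rw [prod_biUnion]
      intro i _ j _ hij
      rw [Fintype.mem_piFinset] at hT
      exact disjoint_of_subset_left (mem_powerset.1 (hT i))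
        (disjoint_of_subset_right (mem_powerset.1 (hT j)) (hd i j hij))

open Classical in
/-- the coefficient function of a function on the subsets of `P` -/
noncomputable def cf (P : Finset ℕ) (D : ℕ) (C : Finset ℕ → ℝ) (e : ℕ) : ℝ :=
  if Squarefree e ∧ e.primeFactors ⊆ P ∧ e ≤ D then C e.primeFactors else 0

theorem cf_sum (P : Finset ℕ) (hP : ∀ p ∈ P, p.Prime) (D : ℕ) (C : Finset ℕ → ℝ)
    (hC : ∀ U ⊆ P, C U ≠ 0 → ∏ p ∈ U, p ≤ D) (G : ℕ → ℝ) (g : ℕ → ℝ)
    (hG : ∀ U ⊆ P, G (∏ p ∈ U, p) = ∏ p ∈ U, g p) :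
    ∑ e ∈ Icc 1 D, cf P D C e * G e = ∑ U ∈ P.powerset, C U * ∏ p ∈ U, g p := by
  classical
  have h1 : ∑ U ∈ P.powerset, C U * ∏ p ∈ U, g p =
      ∑ U ∈ P.powerset.filter (fun U => ∏ p ∈ U, p ≤ D), C U * ∏ p ∈ U, g p := by
    symm
    apply sum_filter_of_ne
    intro U hU h
    exact hC U (mem_powerset.1 hU) (left_ne_zero_of_mul h)
  have h2 : ∑ e ∈ Icc 1 D, cf P D C e * G e =
      ∑ e ∈ (Icc 1 D).filter (fun e => Squarefree e ∧ e.primeFactors ⊆ P ∧ e ≤ D),
        cf P D C e * G e := by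
    symm
    apply sum_filter_of_ne
    intro e _ h
    by_contra hne
    apply h
    unfold cf
    rw [if_neg hne, zero_mul]
  rw [h1, h2]
  have hpf : ∀ U ⊆ P, (∏ p ∈ U, p).primeFactors = U := fun U hU =>
    Nat.primeFactors_prod fun p hp => hP p (hU hp)
  refine sum_nbij' (fun e => e.primeFactors) (fun U => ∏ p ∈ U, p) ?_ ?_ ?_ ?_ ?_
  · intro e he
    rw [mem_filter] at he
    rw [mem_filter, mem_powerset]
    refine ⟨he.2.2.1, ?_⟩
    rw [Nat.prod_primeFactors_of_squarefree he.2.1]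
    exact he.2.2.2
  · intro U hU
    rw [mem_filter, mem_powerset] at hU
    have hpos : 0 < ∏ p ∈ U, p := prod_pos fun p hp => (hP p (hU.1 hp)).pos
    have hsq : Squarefree (∏ p ∈ U, p) := by
      refine Finset.squarefree_prod_of_pairwise_isCoprime (fun a ha b hb hab => ?_)
        (fun l hl => ?_)
      · exact Nat.coprime_iff_isRelPrime.1
          ((Nat.coprime_primes (hP a (hU.1 ha)) (hP b (hU.1 hb))).2 hab)
      · exact (hP l (hU.1 hl)).prime.irreducible.squarefree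
    rw [mem_filter, mem_Icc, hpf U hU.1]
    exact ⟨⟨hpos, hU.2⟩, hsq, hU.1, hU.2⟩
  · intro e he
    rw [mem_filter] at he
    exact Nat.prod_primeFactors_of_squarefree he.2.1
  · intro U hU
    rw [mem_filter, mem_powerset] at hU
    exact hpf U hU.1
  · intro e he
    rw [mem_filter] at he
    have h3 := hG e.primeFactors he.2.2.1
    rw [Nat.prod_primeFactors_of_squarefree he.2.1] at h3
    rw [h3]
    unfold cf
    rw [if_pos he.2]

/-- the sum of the reciprocals of primes between `w` and `w ^ 2` is bounded -/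
theorem block_bd : ∃ L : ℝ, 0 < L ∧ ∀ S : Finset ℕ, (∀ p ∈ S, p.Prime) →
    (∀ p ∈ S, ∀ q ∈ S, q < p ^ 2) → ∑ p ∈ S, (1 : ℝ) / p ≤ L := by
  obtain ⟨C, hC, hM⟩ := Pool.Agent.Helper112.LP.mertens_group
  have hlog2 : 0 < Real.log 2 := Real.log_pos (by norm_num)
  refine ⟨2 * (Real.log 2 + C), by positivity, ?_⟩
  intro S hS hS2
  have hgr : ∀ j : ℕ, 1 ≤ j → ∑ l ∈ Pool.Agent.Helper112.LP.Gj j, (1 : ℝ) / l ≤
      Real.log 2 + C := by
    intro j hj
    have h1 := (abs_le.1 (hM j hj)).2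
    have h2 : C / 2 ^ j ≤ C := div_le_self hC.le (one_le_pow₀ (by norm_num))
    linarith
  rcases S.eq_empty_or_nonempty with h | h
  · rw [h]; simp; positivity
  · set p₀ := S.min' h with hp₀
    have hp₀S : p₀ ∈ S := S.min'_mem h
    have hp := hS p₀ hp₀S
    -- the index of the group
    have hex : ∃ j, p₀ < 2 ^ 2 ^ j := ⟨p₀, by
      calc p₀ < 2 ^ p₀ := Nat.lt_two_pow_self
        _ ≤ 2 ^ 2 ^ p₀ := Nat.pow_le_pow_right (by norm_num) Nat.lt_two_pow_self.le⟩
    classical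
    have h1 := Nat.find_spec hex
    have h0 : Nat.find hex ≠ 0 := by
      intro h0
      rw [h0] at h1
      have := hp.two_le
      norm_num at h1
      omega
    obtain ⟨i, hi⟩ := Nat.exists_eq_succ_of_ne_zero h0
    have h3 : ¬ p₀ < 2 ^ 2 ^ i := Nat.find_min hex (by omega)
    rw [hi] at h1
    have hsub : S ⊆ Pool.Agent.Helper112.LP.Gj (i + 1) ∪ Pool.Agent.Helper112.LP.Gj (i + 2) := by
      intro q hq
      have hqp := hS q hq
      have hge : p₀ ≤ q := S.min'_le q hq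
      have hlt : q < p₀ ^ 2 := hS2 p₀ hp₀S q hq
      have hlt2 : q < 2 ^ 2 ^ (i + 2) := by
        refine hlt.trans_le ?_
        calc p₀ ^ 2 ≤ (2 ^ 2 ^ (i + 1)) ^ 2 := Nat.pow_le_pow_left h1.le 2
          _ = 2 ^ 2 ^ (i + 2) := by rw [← pow_mul, ← pow_succ]
      rw [mem_union]
      unfold Pool.Agent.Helper112.LP.Gj
      rw [mem_filter, mem_filter, mem_Ico, mem_Ico]
      have e1 : i + 1 - 1 = i := by omega
      have e2 : i + 2 - 1 = i + 1 := by omega
      rw [e1, e2]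
      by_cases hc : q < 2 ^ 2 ^ (i + 1)
      · left
        exact ⟨⟨by omega, hc⟩, hqp⟩
      · right
        exact ⟨⟨by omega, hlt2⟩, hqp⟩
    calc ∑ p ∈ S, (1 : ℝ) / p ≤ ∑ p ∈ Pool.Agent.Helper112.LP.Gj (i + 1) ∪
          Pool.Agent.Helper112.LP.Gj (i + 2), (1 : ℝ) / p :=
          sum_le_sum_of_subset_of_nonneg hsub fun _ _ _ => by positivity
      _ ≤ ∑ p ∈ Pool.Agent.Helper112.LP.Gj (i + 1), (1 : ℝ) / p +
          ∑ p ∈ Pool.Agent.Helper112.LP.Gj (i + 2), (1 : ℝ) / p := by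
          rw [← sum_union_inter]
          have : 0 ≤ ∑ x ∈ Pool.Agent.Helper112.LP.Gj (i + 1) ∩
            Pool.Agent.Helper112.LP.Gj (i + 2), (1 : ℝ) / (x : ℝ) :=
            sum_nonneg fun _ _ => by positivity
          linarith
      _ ≤ _ := by
          have := hgr (i + 1) (by omega)
          have := hgr (i + 2) (by omega)
          linarith

end Pool.Agent.W308.PL.FLW
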