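import Pool.Agent.W308.PL.FLW1
import Pool.Agent.W23.PL.Defs

/-!
PL-FLW, part 2: the Brun-Hooley weights.
-/

open Finset

namespace Pool.Agent.W308.PL.FLW

open Pool.Agent.W23.PL
open Pool.Agent.Helper112.LP.Kbh
open Pool.Agent.Helper112.LP.Kba

/-- local upper coefficients -/
noncomputable def lc (r : ℕ) (V : Finset ℕ) : ℝ := if V.card ≤ r then (-1) ^ V.card else 0

/-- local error coefficients -/
noncomputable def ld (r : ℕ) (V : Finset ℕ) : ℝ := if V.card = r + 1 then 1 else 0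

theorem lc_abs (r : ℕ) (V : Finset ℕ) : |lc r V| ≤ 1 := by
  unfold lc
  split_ifs <;> simp

theorem ld_abs (r : ℕ) (V : Finset ℕ) : |ld r V| ≤ 1 := by
  unfold ld
  split_ifs <;> simp

theorem lc_sum (r : ℕ) (P : Finset ℕ) (g : ℕ → ℝ) :
    ∑ V ∈ P.powerset, lc r V * ∏ p ∈ V, g p =
      ∑ U ∈ P.powerset.filter (fun U => U.card ≤ r), (-1) ^ U.card * ∏ l ∈ U, g l := by
  rw [sum_filter]
  apply sum_congr rfl
  intro V _
  unfold lc
  split_ifs <;> simp

theorem ld_sum (r : ℕ) (P : Finset ℕ) (g : ℕ → ℝ) :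
    ∑ V ∈ P.powerset, ld r V * ∏ p ∈ V, g p =
      ∑ U ∈ P.powersetCard (r + 1), ∏ l ∈ U, g l := by
  rw [powersetCard_eq_filter, sum_filter]
  apply sum_congr rfl
  intro V _
  unfold ld
  split_ifs <;> simp

section core

variable {J : ℕ} (Pb : Fin J → Finset ℕ) (b : ℕ)

/-- upper coefficients -/
noncomputable def Cth (U : Finset ℕ) : ℝ := ∏ j : Fin J, lc (2 * (b + j)) (U ∩ Pb j)

/-- error coefficients, one block -/
noncomputable def Cdk (k : Fin J) (U : Finset ℕ) : ℝ :=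
  ∏ j : Fin J, (if j = k then ld (2 * (b + j)) else lc (2 * (b + j))) (U ∩ Pb j)

/-- error coefficients -/
noncomputable def Cdl (U : Finset ℕ) : ℝ := ∑ k : Fin J, Cdk Pb b k U

theorem Cth_abs (U : Finset ℕ) : |Cth Pb b U| ≤ 1 := by
  unfold Cth
  rw [abs_prod]
  exact prod_le_one (fun _ _ => abs_nonneg _) fun j _ => lc_abs _ _

theorem Cdk_abs (k : Fin J) (U : Finset ℕ) : |Cdk Pb b k U| ≤ 1 := by
  unfold Cdk
  rw [abs_prod]
  refine prod_le_one (fun _ _ => abs_nonneg _) fun j _ => ?_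
  split_ifs
  · exact ld_abs _ _
  · exact lc_abs _ _

theorem Cdl_abs (U : Finset ℕ) : |Cdl Pb b U| ≤ J := by
  unfold Cdl
  refine (abs_sum_le_sum_abs _ _).trans ?_
  calc ∑ k : Fin J, |Cdk Pb b k U| ≤ ∑ _k : Fin J, (1 : ℝ) :=
        sum_le_sum fun k _ => Cdk_abs Pb b k U
    _ = J := by simp

theorem Cth_supp {U : Finset ℕ} (h : Cth Pb b U ≠ 0) :
    ∀ j : Fin J, (U ∩ Pb j).card ≤ 2 * (b + j) + 1 := by
  intro j
  unfold Cth at h
  rw [prod_ne_zero_iff] at h
  have := h j (mem_univ j)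
  unfold lc at this
  by_contra hne
  apply this
  rw [if_neg (by omega)]

theorem Cdk_supp {k : Fin J} {U : Finset ℕ} (h : Cdk Pb b k U ≠ 0) :
    ∀ j : Fin J, (U ∩ Pb j).card ≤ 2 * (b + j) + 1 := by
  intro j
  unfold Cdk at h
  rw [prod_ne_zero_iff] at h
  have := h j (mem_univ j)
  by_contra hne
  apply this
  split_ifs
  · unfold ld
    rw [if_neg (by omega)]
  · unfold lc
    rw [if_neg (by omega)]

theorem Cdl_supp {U : Finset ℕ} (h : Cdl Pb b U ≠ 0) :
    ∀ j : Fin J, (U ∩ Pb j).card ≤ 2 * (b + j) + 1 := by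
  unfold Cdl at h
  obtain ⟨k, -, hk⟩ := exists_ne_zero_of_sum_ne_zero h
  exact Cdk_supp Pb b hk

theorem prod_ite_fin (k : Fin J) (f1 f2 : Fin J → ℝ) : (∏ i, if i = k then f1 i else f2 i) =
    f1 k * ∏ i ∈ univ.erase k, f2 i := by
  rw [← mul_prod_erase univ _ (mem_univ k), if_pos rfl]
  congr 1
  apply prod_congr rfl
  intro i hi
  rw [if_neg (ne_of_mem_erase hi)]

variable (hd : ∀ i j, i ≠ j → Disjoint (Pb i) (Pb j)) (P : Finset ℕ) (hP : P = univ.biUnion Pb)
  (g : ℕ → ℝ)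

include hd hP

theorem sum_Cth : ∑ U ∈ P.powerset, Cth Pb b U * ∏ p ∈ U, g p =
    ∏ j : Fin J, ∑ U ∈ (Pb j).powerset.filter (fun U => U.card ≤ 2 * (b + j)),
      (-1) ^ U.card * ∏ l ∈ U, g l := by
  unfold Cth
  rw [fact Pb hd P hP (fun j => lc (2 * (b + j))) g]
  apply prod_congr rfl
  intro j _
  exact lc_sum _ _ _

theorem sum_Cdl : ∑ U ∈ P.powerset, Cdl Pb b U * ∏ p ∈ U, g p =
    ∑ k : Fin J, (∑ U ∈ (Pb k).powersetCard (2 * (b + k) + 1), ∏ l ∈ U, g l) *
      ∏ j ∈ univ.erase k, ∑ U ∈ (Pb j).powerset.filter (fun U => U.card ≤ 2 * (b + j)),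
      (-1) ^ U.card * ∏ l ∈ U, g l := by
  have h1 : ∑ U ∈ P.powerset, Cdl Pb b U * ∏ p ∈ U, g p =
      ∑ k : Fin J, ∑ U ∈ P.powerset, Cdk Pb b k U * ∏ p ∈ U, g p := by
    rw [sum_comm]
    apply sum_congr rfl
    intro U _
    unfold Cdl
    rw [sum_mul]
  rw [h1]
  apply sum_congr rfl
  intro k _
  unfold Cdk
  rw [fact Pb hd P hP (fun j => if j = k then ld (2 * (b + j)) else lc (2 * (b + j))) g,
    ← prod_ite_fin k (fun j => ∑ U ∈ (Pb j).powersetCard (2 * (b + j) + 1), ∏ l ∈ U, g l)]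
  apply prod_congr rfl
  intro j _
  split_ifs with h
  · exact ld_sum _ _ _
  · exact lc_sum _ _ _

omit hd hP in
theorem dvd_ite_prod (U : Finset ℕ) (hU : ∀ p ∈ U, p.Prime) (m : ℤ) :
    (if ((∏ p ∈ U, p : ℕ) : ℤ) ∣ m then (1 : ℝ) else 0) =
      ∏ p ∈ U, (if p ∣ m.natAbs then (1 : ℝ) else 0) := by
  rw [Finset.prod_ite_zero]
  simp only [prod_const_one]
  have : ((∏ p ∈ U, p : ℕ) : ℤ) ∣ m ↔ ∀ p ∈ U, p ∣ m.natAbs := by
    rw [Int.natCast_dvd]
    constructor
    · intro h p hp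
      exact (dvd_prod_of_mem (fun p => p) hp).trans h
    · intro h
      exact Finset.prod_primes_dvd _ (fun p hp => (hU p hp).prime) h
  simp only [this]

theorem core (hprime : ∀ j, ∀ p ∈ Pb j, p.Prime) (L : ℝ)
    (hL : ∀ j, ∑ p ∈ Pb j, (1 : ℝ) / p ≤ L) (D : ℕ)
    (hlevel : ∀ U ⊆ P, (∀ j : Fin J, (U ∩ Pb j).card ≤ 2 * (b + j) + 1) → ∏ p ∈ U, p ≤ D)
    (ρ : ℝ) (hρ1 : ρ ≤ 1)
    (hρ : ∑ j : Fin J, Real.exp (2 * L) * (L ^ (2 * (b + j) + 1) / (2 * (b + j) + 1).factorial) ≤ ρ)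
    (U0 : ℝ) (hU1 : 1 ≤ U0) (hUJ : (J : ℝ) ≤ U0) :
    ∃ th dl : ℕ → ℝ, DW P D U0 th ∧ DW P D U0 dl ∧
      (∀ m : ℤ, xx P m ≤ Ev th D m ∧ Ev th D m - xx P m ≤ Ev dl D m) ∧
      |hat th D - VV P| ≤ 3 * ρ * VV P ∧ |hat dl D| ≤ 3 * ρ * VV P := by
  classical
  have hPp : ∀ p ∈ P, p.Prime := by
    intro p hp
    rw [hP] at hp
    obtain ⟨j, -, hj⟩ := mem_biUnion.1 hp
    exact hprime j p hj
  have hCth : ∀ U ⊆ P, Cth Pb b U ≠ 0 → ∏ p ∈ U, p ≤ D :=
    fun U hU h => hlevel U hU (Cth_supp Pb b h)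
  have hCdl : ∀ U ⊆ P, Cdl Pb b U ≠ 0 → ∏ p ∈ U, p ≤ D :=
    fun U hU h => hlevel U hU (Cdl_supp Pb b h)
  have hDW : ∀ C : Finset ℕ → ℝ, (∀ U, |C U| ≤ U0) → DW P D U0 (cf P D C) := by
    intro C hC
    constructor
    · intro e
      unfold cf
      split_ifs
      · exact hC _
      · rw [abs_zero]; linarith
    · intro e he
      unfold cf at he
      split_ifs at he with h
      · refine ⟨h.1, h.2.2, fun p hp hpe => h.2.1 ?_⟩
        rw [Nat.mem_primeFactors]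
        exact ⟨hp, hpe, h.1.ne_zero⟩
      · exact absurd rfl he
  -- evaluation
  have hEv : ∀ C : Finset ℕ → ℝ, (∀ U ⊆ P, C U ≠ 0 → ∏ p ∈ U, p ≤ D) → ∀ m : ℤ,
      Ev (cf P D C) D m = ∑ U ∈ P.powerset, C U * ∏ p ∈ U, (if p ∣ m.natAbs then (1 : ℝ) else 0) := by
    intro C hC m
    unfold Ev
    apply cf_sum P hPp D C hC
    intro U hU
    exact dvd_ite_prod U (fun p hp => hPp p (hU hp)) m
  have hhat : ∀ C : Finset ℕ → ℝ, (∀ U ⊆ P, C U ≠ 0 → ∏ p ∈ U, p ≤ D) →
      hat (cf P D C) D = ∑ U ∈ P.powerset, C U * ∏ p ∈ U, (1 / (p : ℝ)) := by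
    intro C hC
    unfold hat
    rw [← cf_sum P hPp D C hC (fun e => 1 / (e : ℝ)) (fun p => 1 / (p : ℝ))]
    · apply sum_congr rfl
      intro e _
      rw [mul_one_div]
    · intro U _
      push_cast
      rw [prod_div_distrib, prod_const_one]
  refine ⟨cf P D (Cth Pb b), cf P D (Cdl Pb b), hDW _ fun U => (Cth_abs Pb b U).trans hU1,
    hDW _ fun U => (Cdl_abs Pb b U).trans hUJ, ?_, ?_⟩
  · intro m
    rw [hEv _ hCth, hEv _ hCdl, sum_Cth Pb b hd P hP, sum_Cdl Pb b hd P hP]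
    -- local inequalities
    set N := m.natAbs with hN
    have hy : ∀ j : Fin J, (∑ U ∈ (Pb j).powerset.filter (fun U => U.card ≤ 2 * (b + j)),
        (-1 : ℝ) ^ U.card * ∏ l ∈ U, (if l ∣ N then (1 : ℝ) else 0)) =
        ∑ U ∈ (Pb j).powerset.filter (fun U => U.card ≤ 2 * (b + j)),
          if ∀ l ∈ U, l ∣ N then ((-1 : ℝ)) ^ U.card else 0 := by
      intro j
      apply sum_congr rfl
      intro U _
      rw [Finset.prod_ite_zero]
      simp only [prod_const_one]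
      split_ifs <;> simp
    have he : ∀ j : Fin J, (∑ U ∈ (Pb j).powersetCard (2 * (b + j) + 1),
        ∏ l ∈ U, (if l ∣ N then (1 : ℝ) else 0)) =
        ∑ U ∈ (Pb j).powersetCard (2 * (b + j) + 1), if ∀ l ∈ U, l ∣ N then (1 : ℝ) else 0 := by
      intro j
      apply sum_congr rfl
      intro U _
      rw [Finset.prod_ite_zero]
      simp only [prod_const_one]
    simp only [hy, he]
    have hloc := fun j : Fin J => bh_local (Pb j) (2 * (b + j)) (even_two_mul _) N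
    have hx : xx P m = ∏ j : Fin J, (if ∀ l ∈ Pb j, ¬ l ∣ N then (1 : ℝ) else 0) := by
      unfold xx
      rw [Finset.prod_ite_zero]
      simp only [prod_const_one]
      have : (∀ p ∈ P, ¬ (p : ℤ) ∣ m) ↔ ∀ i ∈ (univ : Finset (Fin J)), ∀ l ∈ Pb i, ¬ l ∣ N := by
        rw [hP]
        simp only [mem_biUnion, mem_univ, true_and, forall_exists_index, forall_true_left,
          Int.natCast_dvd]
        constructor
        · intro h i l hl
          exact h l i hl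
        · intro h l i hl
          exact h i l hl
      simp only [this]
    rw [hx]
    constructor
    · exact prod_le_prod (fun j _ => (hloc j).1) fun j _ => (hloc j).2.1
    · exact bh_prod_sub univ _ _ _ (fun j => (hloc j).1) (fun j => (hloc j).2.1)
        fun j => (hloc j).2.2
  · rw [hhat _ hCth, hhat _ hCdl, sum_Cth Pb b hd P hP, sum_Cdl Pb b hd P hP]
    set V : Fin J → ℝ := fun j => ∏ p ∈ Pb j, (1 - 1 / (p : ℝ)) with hV
    set T : Fin J → ℝ := fun j => bhA (fun p => 1 / (p : ℝ)) (2 * (b + j)) (Pb j) with hT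
    set E : Fin J → ℝ := fun j => bhE (fun p => 1 / (p : ℝ)) (2 * (b + j) + 1) (Pb j) with hE
    have hTd : ∀ j : Fin J, (∑ U ∈ (Pb j).powerset.filter (fun U => U.card ≤ 2 * (b + j)),
        (-1 : ℝ) ^ U.card * ∏ l ∈ U, (1 / (l : ℝ))) = T j := fun j => rfl
    have hEd : ∀ j : Fin J, (∑ U ∈ (Pb j).powersetCard (2 * (b + j) + 1),
        ∏ l ∈ U, (1 / (l : ℝ))) = E j := fun j => rfl
    simp only [hTd, hEd]
    have hVV : VV P = ∏ j, V j := by
      unfold VV
      rw [hP, prod_biUnion]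
      intro i _ j _ hij
      exact hd i j hij
    rw [hVV]
    have hgb : ∀ j, ∀ p ∈ Pb j, 0 ≤ 1 / (p : ℝ) ∧ 1 / (p : ℝ) ≤ 1 / 2 :=
      fun j p hp => bh_inv_bd (hprime j p hp)
    have hbonf : ∀ j, V j ≤ T j ∧ T j ≤ V j + E j := by
      intro j
      have h := bh_bonf (fun p => 1 / (p : ℝ)) (Pb j)
        (fun p hp => ⟨(hgb j p hp).1, (hgb j p hp).2.trans (by norm_num)⟩) (2 * (b + j))
      rw [(even_two_mul _).neg_one_pow, one_mul] at h
      constructor
      · have := h.1; simp only [hV, hT]; linarith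
      · have := h.2; simp only [hV, hT, hE]; linarith
    set v : ℝ := Real.exp (-(2 * L)) with hv
    have hv0 : 0 < v := Real.exp_pos _
    have hvinv : Real.exp (2 * L) = v⁻¹ := by rw [hv, Real.exp_neg, inv_inv]
    have hVv : ∀ j, v ≤ V j := by
      intro j
      have h1 : Real.exp (-(2 * ∑ l ∈ Pb j, (1 : ℝ) / l)) ≤ V j := by
        have : -(2 * ∑ l ∈ Pb j, (1 : ℝ) / l) = ∑ l ∈ Pb j, (-(2 * (1 / (l : ℝ)))) := by
          rw [mul_sum, ← sum_neg_distrib]
        rw [this, Real.exp_sum]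
        exact prod_le_prod (fun l _ => (Real.exp_pos _).le)
          fun l hl => bh_inv_ge (hgb j l hl).1 (hgb j l hl).2
      refine le_trans ?_ h1
      exact Real.exp_le_exp.2 (by linarith [hL j])
    have hE0 : ∀ j, 0 ≤ E j := fun j => bhE_nonneg _ _ _ fun l hl => (hgb j l hl).1
    have hEle : ∀ j : Fin J, E j ≤ L ^ (2 * (b + (j : ℕ)) + 1) /
        ((2 * (b + (j : ℕ)) + 1).factorial : ℝ) := by
      intro j
      refine (bhE_le (fun p => 1 / (p : ℝ)) (Pb j) (fun l hl => (hgb j l hl).1)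
        (2 * (b + j) + 1)).trans ?_
      have h0 : 0 ≤ ∑ l ∈ Pb j, (1 : ℝ) / l := sum_nonneg fun l hl => (hgb j l hl).1
      have := hL j
      gcongr
    have hsum : ∑ j, E j / v ≤ ρ := by
      refine le_trans (sum_le_sum fun j _ => ?_) hρ
      rw [hvinv, div_eq_inv_mul]
      exact mul_le_mul_of_nonneg_left (hEle j) (by positivity)
    have hV0 : ∀ j, 0 < V j := fun j => lt_of_lt_of_le hv0 (hVv j)
    have hT0 : ∀ j, 0 < T j := fun j => lt_of_lt_of_le (hV0 j) (hbonf j).1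
    have hρ0 : 0 ≤ ρ := le_trans (sum_nonneg fun j _ => div_nonneg (hE0 j) hv0.le) hsum
    have hVT : ∏ j, V j ≤ ∏ j, T j := prod_le_prod (fun j _ => (hV0 j).le) fun j _ => (hbonf j).1
    have hTV : ∏ j, T j ≤ (∏ j, V j) * Real.exp ρ := by
      have h1 : ∏ j, T j ≤ ∏ j, V j * Real.exp (E j / v) := by
        refine prod_le_prod (fun j _ => (hT0 j).le) fun j _ => ?_
        refine (hbonf j).2.trans ?_
        have h2 := Real.add_one_le_exp (E j / v)
        have h3 : V j * (E j / v + 1) ≤ V j * Real.exp (E j / v) :=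
          mul_le_mul_of_nonneg_left h2 (hV0 j).le
        refine le_trans ?_ h3
        have h4 : E j ≤ V j * (E j / v) := by
          rw [← mul_div_assoc, le_div_iff₀ hv0, mul_comm (V j)]
          exact mul_le_mul_of_nonneg_left (hVv j) (hE0 j)
        linarith
      rw [prod_mul_distrib, ← Real.exp_sum] at h1
      exact h1.trans (mul_le_mul_of_nonneg_left (Real.exp_le_exp.2 hsum)
        (prod_nonneg fun j _ => (hV0 j).le))
    have hVp : 0 < ∏ j, V j := prod_pos fun j _ => hV0 j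
    have hexp : Real.exp ρ ≤ 1 + 2 * ρ := by
      have h1 := Real.abs_exp_sub_one_sub_id_le (x := ρ) (by rw [abs_of_nonneg hρ0]; exact hρ1)
      have h2 := (abs_le.1 h1).2
      nlinarith
    constructor
    · rw [abs_le]
      constructor
      · have : 0 ≤ 3 * ρ * ∏ j, V j := by positivity
        linarith
      · have : (∏ j, V j) * Real.exp ρ ≤ (∏ j, V j) * (1 + 2 * ρ) :=
          mul_le_mul_of_nonneg_left hexp hVp.le
        have h3 : 0 ≤ ρ * ∏ j, V j := by positivity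
        nlinarith
    · have hterm : ∀ k, 0 ≤ E k * ∏ i ∈ univ.erase k, T i ∧
          E k * ∏ i ∈ univ.erase k, T i ≤ E k / v * ∏ i, T i := by
        intro k
        have h2 : 0 ≤ ∏ i ∈ univ.erase k, T i := prod_nonneg fun i _ => (hT0 i).le
        refine ⟨mul_nonneg (hE0 k) h2, ?_⟩
        have h1 : ∏ i, T i = T k * ∏ i ∈ univ.erase k, T i :=
          (mul_prod_erase univ T (mem_univ k)).symm
        rw [h1, div_mul_eq_mul_div, le_div_iff₀ hv0]
        have h3 : v ≤ T k := (hVv k).trans (hbonf k).1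
        have h4 : E k * (∏ i ∈ univ.erase k, T i) * v ≤
            E k * (∏ i ∈ univ.erase k, T i) * T k :=
          mul_le_mul_of_nonneg_left h3 (mul_nonneg (hE0 k) h2)
        linarith
      rw [abs_of_nonneg (sum_nonneg fun k _ => (hterm k).1)]
      calc ∑ k, E k * ∏ i ∈ univ.erase k, T i ≤ ∑ k, E k / v * ∏ i, T i :=
            sum_le_sum fun k _ => (hterm k).2
        _ = (∑ k, E k / v) * ∏ i, T i := by rw [sum_mul]
        _ ≤ ρ * ((∏ j, V j) * Real.exp ρ) :=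
            mul_le_mul hsum hTV (prod_nonneg fun i _ => (hT0 i).le) hρ0
        _ ≤ ρ * ((∏ j, V j) * 3) := by
            apply mul_le_mul_of_nonneg_left _ hρ0
            apply mul_le_mul_of_nonneg_left _ hVp.le
            linarith
        _ = 3 * ρ * ∏ j, V j := by ring

end core

end Pool.Agent.W308.PL.FLW
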